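import Pool.Agent.Helper15.T4.Stmts

set_option autoImplicit false

open Finset

namespace Pool.Agent.Helper24.T4

open Pool.Agent.Helper15.T4

/-- Natural number version of `w1`. -/
def n1 (a b c : Fin 4 × Fin 3) : ℕ :=
  if (a.1 ≠ b.1 ∧ a.1 ≠ c.1 ∧ b.1 ≠ c.1 ∧ a.1.succAbove a.2 = b.1.succAbove b.2 ∧
    a.1.succAbove a.2 = c.1.succAbove c.2) then 1 else 0

/-- Natural number version of the compatibility matrix. -/
def c1 (b c : Fin 4 × Fin 3) : ℕ := if b.1 = c.1 ∧ b.2 ≠ c.2 then 1 else 0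

/-- Natural number version of the transfer matrix. -/
def b1 (a b : Fin 4 × Fin 3) : ℕ :=
  if b.1 ≠ a.1 ∧ b.1 ≠ a.1.succAbove a.2 ∧ b.1.succAbove b.2 ≠ a.1.succAbove a.2 then 1 else 0

theorem key1 : ∀ a b : Fin 4 × Fin 3,
    ∑ c : Fin 4 × Fin 3, (∑ d : Fin 4 × Fin 3, n1 a c d) * c1 c b = b1 a b := by
  decide +kernel

theorem w1_eq (a b c : L1) : w1 a b c = (n1 a b c : ℝ) := by
  unfold w1 n1 vc
  by_cases h : (a.1 ≠ b.1 ∧ a.1 ≠ c.1 ∧ b.1 ≠ c.1 ∧ a.1.succAbove a.2 = b.1.succAbove b.2 ∧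
    a.1.succAbove a.2 = c.1.succAbove c.2)
  · rw [if_pos h, if_pos h]; simp
  · rw [if_neg h, if_neg h]; simp

theorem sq2 : ((Real.sqrt 2 : ℝ) : ℂ) ^ 2 = 2 := by
  rw [← Complex.ofReal_pow, Real.sq_sqrt (by norm_num)]
  norm_num

theorem sumS (c : L1) : ∑ i : L1, S1 c i = ((Real.sqrt 2 : ℝ) : ℂ) := by
  rw [Fintype.sum_prod_type]
  have h : ∀ x : Fin 4, ∑ y : Fin 3, S1 c (x, y) =
      if c.1 = x then ((Real.sqrt 2 : ℝ) : ℂ) else 0 := by
    intro x
    unfold S1
    by_cases hx : c.1 = x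
    · simp only [hx, if_true]
      rw [Finset.sum_add_distrib, Finset.sum_ite_eq]
      simp
      ring
    · simp [hx]
  simp only [h]
  rw [Finset.sum_ite_eq]
  simp

theorem l_u1 (c : L1) : m1.l c u1 = ((1 / Real.sqrt 6 : ℝ) : ℂ) := by
  unfold Mdl.l
  have h : ∀ i : L1, m1.S c i * ((u1 i : ℝ) : ℂ) = S1 c i * ((1 / Real.sqrt 12 : ℝ) : ℂ) := by
    intro i; rfl
  simp only [h]
  rw [← Finset.sum_mul, sumS, ← Complex.ofReal_mul]
  congr 1
  have h6 : (0 : ℝ) < Real.sqrt 6 := Real.sqrt_pos.mpr (by norm_num)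
  have h12 : Real.sqrt 12 = Real.sqrt 2 * Real.sqrt 6 := by
    rw [← Real.sqrt_mul (by norm_num)]; norm_num
  have h2 : (0 : ℝ) < Real.sqrt 2 := Real.sqrt_pos.mpr (by norm_num)
  rw [h12]
  field_simp

theorem AM_eq (b c : L1) : m1.AM b c = (c1 b c : ℂ) := by
  have h0 : m1.AM b c = ∑ i : L1, S1 b i * S1 c i := rfl
  rw [h0, Fintype.sum_prod_type]
  have h : ∀ x : Fin 4, ∑ y : Fin 3, S1 b (x, y) * S1 c (x, y) =
      if b.1 = x then (if c.1 = x then (1 - (if b.2 = c.2 then 1 else 0) : ℂ) else 0) else 0 := by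
    intro x
    unfold S1
    by_cases hb : b.1 = x
    · by_cases hc : c.1 = x
      · simp only [hb, hc, if_true]
        have hI : Complex.I ^ 2 = -1 := Complex.I_sq
        have h2 := sq2
        set s : ℂ := ((Real.sqrt 2 : ℝ) : ℂ) with hs
        obtain ⟨b1, b2⟩ := b
        obtain ⟨c1, c2⟩ := c
        simp only
        have hb2 : ∀ y : Fin 3, ((s - Complex.I) / 3 + if b2 = y then Complex.I else 0) *
            ((s - Complex.I) / 3 + if c2 = y then Complex.I else 0) =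
            ((s - Complex.I) / 3) ^ 2 + (if b2 = y then Complex.I * ((s - Complex.I) / 3) else 0) +
            (if c2 = y then Complex.I * ((s - Complex.I) / 3) else 0) +
            (if b2 = y then (if c2 = y then (-1 : ℂ) else 0) else 0) := by
          intro y
          by_cases h1 : b2 = y <;> by_cases h3 : c2 = y <;>
            simp only [h1, h3, if_true, if_false] <;> first | ring1 | linear_combination hI
        simp only [hb2]
        rw [Finset.sum_add_distrib, Finset.sum_add_distrib, Finset.sum_add_distrib,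
          Finset.sum_ite_eq, Finset.sum_ite_eq, Finset.sum_ite_eq]
        simp only [Finset.mem_univ, if_true, Finset.sum_const, Finset.card_univ, Fintype.card_fin]
        by_cases hbc : b2 = c2
        · rw [if_pos hbc, if_pos hbc.symm]
          simp only [nsmul_eq_mul]
          push_cast
          linear_combination (1 / 3) * h2 - (1 / 3) * hI
        · rw [if_neg hbc, if_neg (Ne.symm hbc)]
          simp only [nsmul_eq_mul]
          push_cast
          linear_combination (1 / 3) * h2 - (1 / 3) * hI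
      · simp [hc]
    · simp [hb]
  simp only [h]
  rw [Finset.sum_ite_eq]
  simp only [Finset.mem_univ, if_true]
  unfold c1
  by_cases h1 : b.1 = c.1
  · by_cases h2 : b.2 = c.2
    · simp [h1, h2]
    · simp [h1, h2]
  · rw [if_neg (fun h => h1 h.symm), if_neg (fun h => h1 h.1)]
    simp

theorem R_eq (a b : L1) : m1.R u1 a b =
    ((∑ d : L1, n1 a b d : ℕ) : ℂ) * ((1 / Real.sqrt 6 : ℝ) : ℂ) := by
  have h0 : m1.R u1 a b = ∑ c : L1, ((w1 a b c : ℝ) : ℂ) * m1.l c u1 := rfl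
  rw [h0]
  simp only [l_u1, w1_eq]
  rw [← Finset.sum_mul]
  push_cast
  rfl

theorem RU : ST_RU := by
  unfold ST_RU
  ext a b
  rw [Matrix.mul_apply, Matrix.smul_apply]
  simp only [R_eq, AM_eq]
  have h1 : ∑ c : L1, ((∑ d : L1, n1 a c d : ℕ) : ℂ) * ((1 / Real.sqrt 6 : ℝ) : ℂ) * (c1 c b : ℂ) =
      ((1 / Real.sqrt 6 : ℝ) : ℂ) * ((∑ c : L1, (∑ d : L1, n1 a c d) * c1 c b : ℕ) : ℂ) := by
    rw [Nat.cast_sum, Finset.mul_sum]
    apply Finset.sum_congr rfl
    intro c _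
    rw [Nat.cast_mul]
    ring
  rw [h1]
  have h2 : (∑ c : L1, (∑ d : L1, n1 a c d) * c1 c b) = b1 a b := key1 a b
  rw [h2]
  have h3 : B1 a b = (b1 a b : ℂ) / 4 := by
    unfold B1 b1 vc
    by_cases h : (b.1 ≠ a.1 ∧ b.1 ≠ a.1.succAbove a.2 ∧ b.1.succAbove b.2 ≠ a.1.succAbove a.2)
    · rw [if_pos h, if_pos h]; simp
    · rw [if_neg h, if_neg h]; simp
  rw [h3]
  have h4 : (1 / Real.sqrt 6 : ℝ) = q1 / 4 := by
    unfold q1
    have h6 : (0 : ℝ) < Real.sqrt 6 := Real.sqrt_pos.mpr (by norm_num)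
    have h5 : Real.sqrt (8 / 3) * Real.sqrt 6 = 4 := by
      rw [← Real.sqrt_mul (by norm_num)]
      rw [show (8 / 3 * 6 : ℝ) = 4 ^ 2 by norm_num]
      exact Real.sqrt_sq (by norm_num)
    rw [div_eq_div_iff h6.ne' (by norm_num)]
    linarith
  rw [h4]
  push_cast
  rw [smul_eq_mul]
  ring

end Pool.Agent.Helper24.T4
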